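import Pool.Agent.helper98.DNX.TP

/-! # The last real inequality -/

set_option autoImplicit false
set_option linter.unusedVariables false

namespace Pool.Agent.helper98.DNX

lemma log_bound (L : ℝ) (hL : 0 < L) : Real.log L ≤ L / 100 + 4 := by
  have h1 : Real.log (L / 100) ≤ L / 100 - 1 := Real.log_le_sub_one_of_pos (by positivity)
  rw [Real.log_div hL.ne' (by norm_num)] at h1
  have h2 : Real.log 100 ≤ Real.log (2 ^ 7) := Real.log_le_log (by norm_num) (by norm_num)
  rw [Real.log_pow] at h2
  have h3 : Real.log 2 < 0.6931471808 := Real.log_two_lt_d9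
  push_cast at h2
  linarith

theorem fin_real (m L e Q k E : ℝ) (hm : 0 < m) (hL : 600 ≤ L) (hlm : Real.log m = -(L * Real.log 2))
    (he : m ≤ e) (hek : e ≤ k) (hk : k ≤ m * L ^ 3) (hQ : 0 ≤ Q) (hE : Th e Q k ≤ E) :
    m * (L - 512) ≤ E := by
  have hl1 : 0.6931471803 < Real.log 2 := Real.log_two_gt_d9
  have hl2 : Real.log 2 < 0.6931471808 := Real.log_two_lt_d9
  obtain ⟨l, hl⟩ : ∃ l, l = Real.log 2 := ⟨_, rfl⟩
  rw [← hl] at hl1 hl2 hlm
  have hl0 : 0 < l := by linarith
  have hL0 : 0 < L := by linarith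
  have he0 : 0 < e := by linarith
  have hk0 : 0 < k := by linarith
  have hlogL := log_bound L hL0
  -- logarithm of 1/k
  have h1 : L / 2 ≤ Real.log (1 / k) := by
    rw [one_div, Real.log_inv]
    have h2 : Real.log k ≤ Real.log (m * L ^ 3) := Real.log_le_log hk0 hk
    rw [Real.log_mul hm.ne' (by positivity), Real.log_pow, hlm] at h2
    push_cast at h2
    nlinarith
  have hr : Real.log e = Real.log m + Real.log (e / m) := by
    rw [Real.log_div he0.ne' hm.ne']; ring
  obtain ⟨r, hr'⟩ : ∃ r, r = e / m := ⟨_, rfl⟩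
  have her : e = m * r := by rw [hr']; field_simp
  have hr1 : 1 ≤ r := by rw [hr', le_div_iff₀ hm]; linarith
  have hr0 : 0 < r := by linarith
  have hrL : r ≤ L ^ 3 := by
    rw [hr', div_le_iff₀ hm]
    linarith
  rw [← hr', hlm] at hr
  have hlr0 : 0 ≤ Real.log r := Real.log_nonneg hr1
  have hlr1 : Real.log r ≤ r - 1 := Real.log_le_sub_one_of_pos hr0
  have hlr2 : Real.log r ≤ 3 * (L / 100 + 4) := by
    have h2 : Real.log r ≤ Real.log (L ^ 3) := Real.log_le_log hr0 hrL
    rw [Real.log_pow] at h2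
    push_cast at h2
    linarith
  have hphi : phi e = e * (L - Real.log r / l) := by
    unfold phi Real.negMulLog
    rw [← hl, hr]
    field_simp
    ring
  have hpsi : psi e ≤ 2 * (e * L) := by
    unfold psi
    rw [hphi]
    have h2 : 0 ≤ e * (Real.log r / l) := by positivity
    nlinarith
  have hpsi0 : 0 ≤ psi e := by
    unfold psi
    rw [hphi]
    have h2 : Real.log r / l ≤ L := by
      rw [div_le_iff₀ hl0]
      nlinarith
    have h3 : 0 ≤ e * (L - Real.log r / l) := mul_nonneg he0.le (by linarith)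
    linarith
  have hsq : √(psi e * Q) ≤ 128 * e + L * Q / 256 := by
    rw [Real.sqrt_le_left (by positivity)]
    have h2 : psi e * Q ≤ 2 * (e * L) * Q := mul_le_mul_of_nonneg_right hpsi hQ
    nlinarith [sq_nonneg (128 * e - L * Q / 256)]
  have hQk : Q * (L / 2) ≤ Q * Real.log (1 / k) := mul_le_mul_of_nonneg_left h1 hQ
  have h3 : phi e - 512 * e ≤ E := by
    refine le_trans ?_ hE
    unfold Th
    linarith
  refine le_trans ?_ h3
  rw [hphi, her]
  have h4 : r * Real.log r ≤ (r - 1) * (Real.log r + 1) := by nlinarith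
  have h5 : Real.log r + 1 ≤ l * (L - 512) := by nlinarith
  have h6 : r * Real.log r / l ≤ (r - 1) * (L - 512) := by
    rw [div_le_iff₀ hl0]
    calc r * Real.log r ≤ (r - 1) * (Real.log r + 1) := h4
      _ ≤ (r - 1) * (l * (L - 512)) := mul_le_mul_of_nonneg_left h5 (by linarith)
      _ = (r - 1) * (L - 512) * l := by ring
  have h7 : m * r * (L - Real.log r / l) - 512 * (m * r) =
      m * (r * (L - 512) - r * Real.log r / l) := by ring
  rw [h7]
  apply mul_le_mul_of_nonneg_left _ hm.le
  linarith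

end Pool.Agent.helper98.DNX
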