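import Mathlib

/-! # The two-point inequality: algebraic core -/

set_option autoImplicit false
set_option linter.unusedVariables false

namespace Pool.Agent.helper98.DNX

/-- the quadratic form -/
lemma form (r X Z : ℝ) (hr0 : 0 ≤ r) (hr1 : r ≤ 1) (hX : 0 ≤ X) (hXZ : X ≤ Z) :
    (Z ^ 2 - X ^ 2) * (1 - r ^ 2) * (1 - r ^ 2 / 8) ≤
      (Z - r * X) ^ 2 - (1 / 16) * ((1 - r) * X) ^ 2 := by
  have key : 0 ≤ (X - r * Z) ^ 2 + r ^ 2 / 8 * (1 - r ^ 2) * (Z ^ 2 - X ^ 2) -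
      (1 - r) ^ 2 * X ^ 2 / 16 := by
    obtain ⟨e, he⟩ : ∃ e, e = X - r * Z := ⟨_, rfl⟩
    obtain ⟨z, hz⟩ : ∃ z, z = r * (1 - r) * Z := ⟨_, rfl⟩
    have hX' : X = r * Z + e := by rw [he]; ring
    obtain ⟨p, hp⟩ : ∃ p, p = 2 * (1 + r) ^ 2 - 1 := ⟨_, rfl⟩
    obtain ⟨b, hb⟩ : ∃ b, b = 1 - r + 2 * r ^ 2 + 2 * r ^ 3 := ⟨_, rfl⟩
    obtain ⟨c, hc⟩ : ∃ c, c = 1 - r ^ 2 / 8 * (1 - r ^ 2) - (1 - r) ^ 2 / 16 := ⟨_, rfl⟩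
    have e1 : (X - r * Z) ^ 2 + r ^ 2 / 8 * (1 - r ^ 2) * (Z ^ 2 - X ^ 2) -
        (1 - r) ^ 2 * X ^ 2 / 16 = p * z ^ 2 / 16 - b * (z * e) / 8 + c * e ^ 2 := by
      rw [hX', hp, hb, hc, hz]; ring
    rw [e1]
    have hp1 : 1 ≤ p := by rw [hp]; nlinarith
    have hc1 : 9 / 10 ≤ c := by
      rw [hc]
      have h1 : r ^ 2 * (1 - r ^ 2) ≤ 1 / 4 := by nlinarith [sq_nonneg (r ^ 2 - 1 / 2)]
      have h2 : (1 - r) ^ 2 ≤ 1 := by nlinarith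
      nlinarith
    have hb0 : 0 ≤ b := by rw [hb]; nlinarith [pow_nonneg hr0 3, sq_nonneg r]
    have hb1 : b ≤ 1 + 3 * r := by
      rw [hb]
      have h1 : r ^ 2 ≤ r := by nlinarith
      have h2 : r ^ 3 ≤ r := by nlinarith [mul_nonneg hr0 hr0]
      linarith
    have hbp : b ^ 2 ≤ 14 * p := by
      have h1 : b ^ 2 ≤ (1 + 3 * r) ^ 2 := pow_le_pow_left₀ hb0 hb1 2
      rw [hp]
      nlinarith
    have hpp : 0 < p := by linarith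
    have e2 : p * (p * z ^ 2 / 16 - b * (z * e) / 8 + c * e ^ 2) =
        (p * z - b * e) ^ 2 / 16 + (p * c - b ^ 2 / 16) * e ^ 2 := by ring
    have h3 : 0 ≤ p * (p * z ^ 2 / 16 - b * (z * e) / 8 + c * e ^ 2) := by
      rw [e2]
      have h4 : 0 ≤ p * c - b ^ 2 / 16 := by nlinarith
      positivity
    exact nonneg_of_mul_nonneg_right h3 hpp
  have e3 : (Z - r * X) ^ 2 - (1 / 16) * ((1 - r) * X) ^ 2 -
      (Z ^ 2 - X ^ 2) * (1 - r ^ 2) * (1 - r ^ 2 / 8) =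
      (X - r * Z) ^ 2 + r ^ 2 / 8 * (1 - r ^ 2) * (Z ^ 2 - X ^ 2) - (1 - r) ^ 2 * X ^ 2 / 16 := by
    ring
  linarith

/-- the Cauchy-Schwarz part -/
lemma cs (a r s X Y : ℝ) (ha : 0 < a) (hr0 : 0 ≤ r) (hr1 : r ≤ 1) (hs : 0 ≤ s)
    (hsa : s ^ 2 ≤ a ^ 2 / 8) (hX : 0 ≤ X) (hY : 0 ≤ Y) :
    a * X + r * a * Y + 3 / 5 * (s * |Y - r * X|) ≤
      √((a ^ 2 + (r * a) ^ 2 + s ^ 2) * (X ^ 2 + Y ^ 2)) := by
  apply Real.le_sqrt_of_sq_le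
  obtain ⟨T, hT⟩ : ∃ T, T = X + r * Y := ⟨_, rfl⟩
  obtain ⟨y, hy⟩ : ∃ y, y = |Y - r * X| := ⟨_, rfl⟩
  have hy0 : 0 ≤ y := by rw [hy]; exact abs_nonneg _
  have hy2 : y ^ 2 = (Y - r * X) ^ 2 := by rw [hy, sq_abs]
  have hT0 : 0 ≤ T := by rw [hT]; positivity
  have hT2 : T ^ 2 ≤ 2 * (X ^ 2 + Y ^ 2) := by
    rw [hT]
    have h1 : r * Y ≤ Y := by nlinarith
    nlinarith [sq_nonneg (X - r * Y), mul_nonneg hr0 hY]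
  have e1 : (a ^ 2 + (r * a) ^ 2 + s ^ 2) * (X ^ 2 + Y ^ 2) =
      a ^ 2 * T ^ 2 + a ^ 2 * y ^ 2 + s ^ 2 * (X ^ 2 + Y ^ 2) := by
    rw [hy2, hT]; ring
  have e2 : a * X + r * a * Y + 3 / 5 * (s * |Y - r * X|) = a * T + 3 / 5 * (s * y) := by
    rw [hT, ← hy]; ring
  rw [e1, e2]
  -- 6/5 a T s y + 9/25 s² y² ≤ a² y² + s² R
  have h1 : 0 ≤ (s * T - 6 / 5 * (a * y)) ^ 2 := sq_nonneg _
  have h2 : s ^ 2 * y ^ 2 ≤ a ^ 2 / 8 * y ^ 2 := mul_le_mul_of_nonneg_right hsa (sq_nonneg y)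
  have h3 : s ^ 2 * T ^ 2 ≤ s ^ 2 * (2 * (X ^ 2 + Y ^ 2)) := mul_le_mul_of_nonneg_left hT2 (sq_nonneg s)
  nlinarith [mul_nonneg (sq_nonneg a) (sq_nonneg y)]

/-- the two-point inequality -/
theorem core (a r s u X Y Z : ℝ) (ha : 0 < a) (hr0 : 0 ≤ r) (hr1 : r ≤ 1) (hs : 0 ≤ s)
    (hu : u ≤ a ^ 2 / 8) (hu0 : 0 ≤ u)
    (hC : s ^ 2 ≤ u * (1 - r ^ 2) * (1 - r ^ 2 / 8))
    (hX : 0 ≤ X) (hY : 0 ≤ Y) (hZ : Z ^ 2 = u + X ^ 2) (hZ0 : 0 ≤ Z) (hYZ : Y ≤ Z) :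
    s ^ 2 + 1 / 16 * (max (X - Y) 0) ^ 2 ≤ (Z - Y) ^ 2 +
      4 * (√((a ^ 2 + (r * a) ^ 2 + s ^ 2) * (X ^ 2 + Y ^ 2)) - a * X - r * a * Y) := by
  have hr2 : r ^ 2 ≤ 1 := by nlinarith
  have hsu : s ^ 2 ≤ u := by
    refine hC.trans ?_
    have h1 : u * (1 - r ^ 2) * (1 - r ^ 2 / 8) ≤ u * 1 * 1 := by
      apply mul_le_mul _ (by nlinarith) (by nlinarith) (by linarith)
      apply mul_le_mul_of_nonneg_left _ hu0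
      nlinarith
    linarith
  have hXZ : X ≤ Z := by
    apply le_of_sq_le_sq _ hZ0
    rw [hZ]; linarith
  have h1 := cs a r s X Y ha hr0 hr1 hs (hsu.trans hu) hX hY
  have h2 := form r X Z hr0 hr1 hX hXZ
  obtain ⟨R, hR⟩ : ∃ R, R = √((a ^ 2 + (r * a) ^ 2 + s ^ 2) * (X ^ 2 + Y ^ 2)) := ⟨_, rfl⟩
  rw [← hR] at h1 ⊢
  have hu' : Z ^ 2 - X ^ 2 = u := by rw [hZ]; ring
  rw [hu'] at h2
  obtain ⟨V, hV⟩ : ∃ V, V = Z - r * X := ⟨_, rfl⟩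
  obtain ⟨B, hB⟩ : ∃ B, B = (1 - r) * X := ⟨_, rfl⟩
  rw [← hV, ← hB] at h2
  have hVB : s ^ 2 ≤ V ^ 2 - 1 / 16 * B ^ 2 := hC.trans h2
  have hB0 : 0 ≤ B := by rw [hB]; exact mul_nonneg (by linarith) hX
  have hBV : B ≤ V := by rw [hB, hV]; nlinarith
  obtain ⟨y, hy⟩ : ∃ y, y = Y - r * X := ⟨_, rfl⟩
  have hZY : Z - Y = V - y := by rw [hV, hy]; ring
  have hXY : X - Y = B - y := by rw [hB, hy]; ring
  rw [← hy] at h1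
  rw [hZY, hXY]
  rcases le_total y 0 with hy0 | hy0
  · have h3 : 0 ≤ B - y := by linarith
    rw [max_eq_left h3]
    have h4 : 0 ≤ s * |y| := mul_nonneg hs (abs_nonneg _)
    have h5 : 0 ≤ -y * (V - B / 16) := mul_nonneg (by linarith) (by linarith)
    nlinarith [sq_nonneg y]
  · rw [abs_of_nonneg hy0] at h1
    have hV0 : 0 ≤ V - y := by rw [← hZY]; linarith
    rcases le_total V (6 / 5 * s) with h3 | h3
    · have h4 : (max (B - y) 0) ^ 2 ≤ B ^ 2 :=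
        pow_le_pow_left₀ (le_max_right _ _) (max_le (by linarith) hB0) 2
      have h5 : 0 ≤ y * (6 / 5 * s - V) := mul_nonneg hy0 (by linarith)
      nlinarith [sq_nonneg y]
    · have h4 : (max (B - y) 0) ^ 2 ≤ (V - y) ^ 2 :=
        pow_le_pow_left₀ (le_max_right _ _) (max_le (by linarith) hV0) 2
      have h5 : 0 ≤ s * (V - 6 / 5 * s) := mul_nonneg hs (by linarith)
      nlinarith [sq_nonneg ((V - y) - 32 / 25 * s), sq_nonneg s]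

end Pool.Agent.helper98.DNX
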