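import Pool.Agent.helper98.DNX.Calc
import Pool.Agent.helper98.DNX.Core

/-! # The two-point inequality for the potential -/

set_option autoImplicit false
set_option linter.unusedVariables false

namespace Pool.Agent.helper98.DNX

/-- `x log₂ (1/x)` -/
noncomputable def phi (x : ℝ) : ℝ := Real.negMulLog x / Real.log 2

/-- `x (log₂ (1/x) + 8)` -/
noncomputable def psi (x : ℝ) : ℝ := phi x + 8 * x

/-- the potential -/
noncomputable def Th (e Q k : ℝ) : ℝ :=
  phi e - 4 * √(psi e * Q) + 1 / 32 * (Q * Real.log (1 / k))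

lemma phi_zero : phi 0 = 0 := by simp [phi]

lemma phi_one : phi 1 = 0 := by simp [phi]

lemma psi_zero : psi 0 = 0 := by simp [psi, phi]

lemma psi_mid (a b : ℝ) : psi a + psi b + (2 * phi ((a + b) / 2) - phi a - phi b) =
    2 * psi ((a + b) / 2) := by
  unfold psi
  ring

lemma s2_nonneg (a b : ℝ) (ha : 0 ≤ a) (hb : 0 ≤ b) :
    0 ≤ 2 * phi ((a + b) / 2) - phi a - phi b := by
  have hl2 : 0 < Real.log 2 := Real.log_pos (by norm_num)
  have h := Real.concaveOn_negMulLog.2 (Set.mem_Ici.2 ha) (Set.mem_Ici.2 hb)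
    (by norm_num : (0 : ℝ) ≤ 1 / 2) (by norm_num : (0 : ℝ) ≤ 1 / 2) (by norm_num)
  simp only [smul_eq_mul] at h
  have e : (1 / 2 : ℝ) * a + 1 / 2 * b = (a + b) / 2 := by ring
  rw [e] at h
  have e2 : 2 * phi ((a + b) / 2) - phi a - phi b =
      2 * (Real.negMulLog ((a + b) / 2) - (1 / 2 * Real.negMulLog a + 1 / 2 * Real.negMulLog b)) /
        Real.log 2 := by
    unfold phi
    ring
  rw [e2]
  apply div_nonneg _ hl2.le
  linarith

/-- all facts on `psi` in terms of the ratio -/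
lemma psi_facts (a x : ℝ) (ha : 0 < a) (ha1 : a ≤ 1) (hx0 : 0 ≤ x) (hx1 : x ≤ 1) :
    8 * a ≤ psi a ∧ 0 ≤ psi (x * a) ∧ psi (x * a) ≤ psi a ∧
    (2 * phi ((a + x * a) / 2) - phi a - phi (x * a)) * psi a ^ 2 ≤
      (a - x * a) * (psi a - psi (x * a)) * (psi a - psi (x * a) / 8) := by
  have hl2 : 0 < Real.log 2 := Real.log_pos (by norm_num)
  have hl2b : Real.log 2 < 0.6931471808 := Real.log_two_lt_d9
  obtain ⟨l, hl⟩ : ∃ l, l = Real.log 2 := ⟨_, rfl⟩
  rw [← hl] at hl2 hl2b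
  obtain ⟨w, hw⟩ : ∃ w, w = -(x * Real.log x) := ⟨_, rfl⟩
  obtain ⟨l0, hl0⟩ : ∃ l0, l0 = - Real.log a + 8 * l := ⟨_, rfl⟩
  have hloga : Real.log a ≤ 0 := Real.log_nonpos ha.le ha1
  have hl08 : 8 * l ≤ l0 := by rw [hl0]; linarith
  have hw0 : 0 ≤ w := by
    rw [hw]
    have := Real.log_nonpos hx0 hx1
    nlinarith
  have hw1 : w ≤ 1 - x := by
    rcases eq_or_lt_of_le hx0 with h | h
    · rw [hw, ← h]; simp
    · have h1 : Real.log (1 / x) ≤ 1 / x - 1 := Real.log_le_sub_one_of_pos (by positivity)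
      rw [one_div, Real.log_inv] at h1
      have h2 : x * (- Real.log x) ≤ x * (x⁻¹ - 1) := mul_le_mul_of_nonneg_left h1 hx0
      have h3 : x * (x⁻¹ - 1) = 1 - x := by field_simp
      rw [hw]; linarith
  have hw2 : x * (1 - x) ≤ w := by
    rcases eq_or_lt_of_le hx0 with h | h
    · rw [hw, ← h]; simp
    · have h1 : Real.log x ≤ x - 1 := Real.log_le_sub_one_of_pos h
      rw [hw]
      nlinarith
  -- values
  have eb : (x * a) * Real.log (x * a) = a * (x * Real.log a - w) := by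
    rcases eq_or_lt_of_le hx0 with h | h
    · rw [hw, ← h]; simp
    · rw [Real.log_mul h.ne' ha.ne', hw]; ring
  have ea : psi a * l = a * l0 := by
    unfold psi phi Real.negMulLog
    rw [← hl, hl0]
    field_simp
  have exa : psi (x * a) * l = a * (x * l0 + w) := by
    have h1 : psi (x * a) * l = -((x * a) * Real.log (x * a)) + 8 * (x * a) * l := by
      unfold psi phi Real.negMulLog
      rw [← hl]
      field_simp
    rw [h1, eb, hl0]
    ring
  have es : (2 * phi ((a + x * a) / 2) - phi a - phi (x * a)) * l =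
      a * ((1 + x) * l - (1 + x) * Real.log (1 + x) - w) := by
    have h0 : (a + x * a) / 2 = (1 + x) * a / 2 := by ring
    have h1 : Real.log ((a + x * a) / 2) = Real.log (1 + x) + Real.log a - l := by
      rw [h0, Real.log_div (by positivity) (by norm_num), Real.log_mul (by positivity) ha.ne', hl]
    have h2 : (2 * phi ((a + x * a) / 2) - phi a - phi (x * a)) * l =
        -((a + x * a) * Real.log ((a + x * a) / 2)) + a * Real.log a + (x * a) * Real.log (x * a) := by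
      unfold phi Real.negMulLog
      rw [← hl]
      field_simp
      ring
    rw [h2, h1, eb]
    ring
  have hk := kf_nonneg x hx0 hx1
  unfold kf at hk
  rw [← hl] at hk
  have hk2 : (1 + x) * l - (1 + x) * Real.log (1 + x) - w ≤ (1 - x) * ((1 - x) * l - w / 4) := by
    have : x * Real.log x = -w := by rw [hw]; ring
    rw [this] at hk
    nlinarith
  have hl0pos : 0 < l0 := by linarith
  refine ⟨?_, ?_, ?_, ?_⟩
  · have h1 : 8 * a * l ≤ psi a * l := by rw [ea]; nlinarith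
    exact le_of_mul_le_mul_right h1 hl2
  · have h1 : 0 ≤ psi (x * a) * l := by rw [exa]; positivity
    exact nonneg_of_mul_nonneg_left h1 hl2
  · have h1 : psi (x * a) * l ≤ psi a * l := by
      rw [exa, ea]
      apply mul_le_mul_of_nonneg_left _ ha.le
      have h2 : 1 ≤ l0 := by
        have := Real.log_two_gt_d9
        rw [← hl] at this
        linarith
      nlinarith
    exact le_of_mul_le_mul_right h1 hl2
  · have h3 : 0 < l ^ 3 := by positivity
    apply le_of_mul_le_mul_right _ h3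
    have e1 : (2 * phi ((a + x * a) / 2) - phi a - phi (x * a)) * psi a ^ 2 * l ^ 3 =
        ((2 * phi ((a + x * a) / 2) - phi a - phi (x * a)) * l) * (psi a * l) ^ 2 := by ring
    have e2 : (a - x * a) * (psi a - psi (x * a)) * (psi a - psi (x * a) / 8) * l ^ 3 =
        (a * (1 - x)) * l * ((psi a * l) - (psi (x * a) * l)) * ((psi a * l) - (psi (x * a) * l) / 8) := by
      ring
    rw [e1, e2, es, ea, exa]
    have e3 : a * ((1 + x) * l - (1 + x) * Real.log (1 + x) - w) * (a * l0) ^ 2 =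
        a ^ 3 * (((1 + x) * l - (1 + x) * Real.log (1 + x) - w) * l0 ^ 2) := by ring
    have e4 : a * (1 - x) * l * (a * l0 - a * (x * l0 + w)) * (a * l0 - a * (x * l0 + w) / 8) =
        a ^ 3 * ((1 - x) * (l * (l0 * (1 - x) - w) * (l0 - (x * l0 + w) / 8))) := by ring
    rw [e3, e4]
    apply mul_le_mul_of_nonneg_left _ (by positivity)
    have h4 : ((1 + x) * l - (1 + x) * Real.log (1 + x) - w) * l0 ^ 2 ≤
        (1 - x) * ((1 - x) * l - w / 4) * l0 ^ 2 := mul_le_mul_of_nonneg_right hk2 (sq_nonneg _)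
    refine h4.trans ?_
    rw [mul_assoc]
    apply mul_le_mul_of_nonneg_left _ (by linarith)
    -- ((1-x) l - w/4) l0² ≤ l (l0 (1-x) - w) (l0 - (x l0 + w)/8)
    have h5 : (x * l0 + w) * (l0 * (1 - x) - w) ≤ (x * l0 + w) * (l0 * (1 - x)) := by
      apply mul_le_mul_of_nonneg_left (by linarith) (by positivity)
    have h6 : (x * l0 + w) * (1 - x) ≤ w * l0 + w := by
      have h7 : x * (1 - x) * l0 ≤ w * l0 := mul_le_mul_of_nonneg_right hw2 hl0pos.le
      have h8 : w * (1 - x) ≤ w * 1 := mul_le_mul_of_nonneg_left (by linarith) hw0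
      linarith
    have h9 : l * (w + (w * l0 + w) / 8) ≤ w * l0 / 4 := by
      have h10 : l * (9 / 8 + l0 / 8) ≤ l0 / 4 := by nlinarith
      nlinarith
    have h11 : l * ((x * l0 + w) * (l0 * (1 - x) - w)) ≤ l * (l0 * (w * l0 + w)) := by
      apply mul_le_mul_of_nonneg_left _ hl2.le
      calc (x * l0 + w) * (l0 * (1 - x) - w) ≤ (x * l0 + w) * (l0 * (1 - x)) := h5
        _ = l0 * ((x * l0 + w) * (1 - x)) := by ring
        _ ≤ l0 * (w * l0 + w) := mul_le_mul_of_nonneg_left h6 hl0pos.le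
    have h12 : l0 * (l * (w + (w * l0 + w) / 8)) ≤ l0 * (w * l0 / 4) :=
      mul_le_mul_of_nonneg_left h9 hl0pos.le
    nlinarith

/-- the part of the support -/
lemma fk (X Y k0 k1 : ℝ) (hX : 0 ≤ X) (hY : 0 ≤ Y) (hk1 : 0 ≤ k1) (hk : k1 ≤ k0) (hk0 : 0 < k0)
    (h : k1 = 0 → Y = 0) :
    (X ^ 2 + Y ^ 2) * Real.log (1 / ((k0 + k1) / 2)) - X ^ 2 * Real.log (1 / k0) -
      Y ^ 2 * Real.log (1 / k1) ≤ 2 * (max (X - Y) 0) ^ 2 := by
  have hkm : 0 < (k0 + k1) / 2 := by linarith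
  simp only [one_div, Real.log_inv]
  rcases eq_or_lt_of_le hk1 with h0 | h0
  · have hY0 := h h0.symm
    have hX' : max (X - Y) 0 = X := by rw [hY0, sub_zero, max_eq_left hX]
    rw [hX', hY0, ← h0, add_zero, Real.log_div hk0.ne' (by norm_num)]
    have : Real.log 2 < 0.6931471808 := Real.log_two_lt_d9
    nlinarith [sq_nonneg X]
  · obtain ⟨k, hkk⟩ : ∃ k, k = (k0 + k1) / 2 := ⟨_, rfl⟩
    rw [← hkk] at hkm ⊢
    obtain ⟨v, hv⟩ : ∃ v, v = (k0 - k1) / (2 * k) := ⟨_, rfl⟩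
    have hv0 : 0 ≤ v := by rw [hv]; apply div_nonneg <;> linarith
    have hv1 : v ≤ 1 := by rw [hv, div_le_one (by linarith)]; linarith
    have e0 : k0 / k = 1 + v := by rw [hv]; field_simp; linarith
    have e1 : k1 / k = 1 - v := by rw [hv]; field_simp; linarith
    obtain ⟨p, hp⟩ : ∃ p, p = Real.log k0 - Real.log k := ⟨_, rfl⟩
    obtain ⟨q, hq⟩ : ∃ q, q = Real.log k - Real.log k1 := ⟨_, rfl⟩
    have hp0 : 0 ≤ p := by
      rw [hp, sub_nonneg]
      exact Real.log_le_log hkm (by linarith)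
    have hpv : p ≤ v := by
      rw [hp, ← Real.log_div hk0.ne' hkm.ne']
      have := Real.log_le_sub_one_of_pos (show 0 < k0 / k by positivity)
      rw [e0] at this ⊢
      linarith
    have hqp : v ^ 2 ≤ q - p := by
      have h1 : q - p = - Real.log ((k0 / k) * (k1 / k)) := by
        rw [Real.log_mul (by positivity) (by positivity), Real.log_div hk0.ne' hkm.ne',
          Real.log_div h0.ne' hkm.ne', hp, hq]
        ring
      have h2 := Real.log_le_sub_one_of_pos (show 0 < (k0 / k) * (k1 / k) by positivity)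
      rw [h1]
      have h3 : (k0 / k) * (k1 / k) = 1 - v ^ 2 := by rw [e0, e1]; ring
      rw [h3] at h2 ⊢
      linarith
    have hq0 : p ≤ q := by nlinarith [sq_nonneg v]
    have e2 : (X ^ 2 + Y ^ 2) * -Real.log k - X ^ 2 * -Real.log k0 - Y ^ 2 * -Real.log k1 =
        X ^ 2 * p - Y ^ 2 * q := by rw [hp, hq]; ring
    rw [e2]
    rcases le_total X Y with hXY | hXY
    · have h1 : X ^ 2 ≤ Y ^ 2 := pow_le_pow_left₀ hX hXY 2
      have h2 : Y ^ 2 * p ≤ Y ^ 2 * q := mul_le_mul_of_nonneg_left hq0 (sq_nonneg Y)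
      have h3 : X ^ 2 * p ≤ Y ^ 2 * p := mul_le_mul_of_nonneg_right h1 hp0
      have h4 : 0 ≤ (max (X - Y) 0) ^ 2 := sq_nonneg _
      linarith
    · rw [max_eq_left (by linarith)]
      have hp1 : 0 < 2 - p := by linarith
      have h1 : 4 ≤ (2 - p) * (2 + q) := by
        have h2 : p ^ 2 ≤ q - p := (pow_le_pow_left₀ hp0 hpv 2).trans hqp
        nlinarith
      have h2 : 0 ≤ (2 - p) * ((2 - p) * X ^ 2 - 4 * (X * Y) + (2 + q) * Y ^ 2) := by
        have e3 : (2 - p) * ((2 - p) * X ^ 2 - 4 * (X * Y) + (2 + q) * Y ^ 2) =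
            ((2 - p) * X - 2 * Y) ^ 2 + ((2 - p) * (2 + q) - 4) * Y ^ 2 := by ring
        rw [e3]
        have : 0 ≤ (2 - p) * (2 + q) - 4 := by linarith
        positivity
      have h3 := nonneg_of_mul_nonneg_right h2 hp1
      nlinarith

theorem tp (a b Q0 Q1 k0 k1 W : ℝ) (hb : 0 ≤ b) (hba : b ≤ a) (ha1 : a ≤ 1) (hQ0 : 0 ≤ Q0)
    (hQ1 : 0 ≤ Q1) (hk1 : 0 ≤ k1) (hk : k1 ≤ k0) (hkQ0 : k0 = 0 → Q0 = 0) (hkQ1 : k1 = 0 → Q1 = 0)
    (hQ : Q1 ≤ a - b + Q0) (hW : (√(a - b + Q0) - √Q1) ^ 2 ≤ W) :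
    Th ((a + b) / 2) ((Q0 + Q1) / 2) ((k0 + k1) / 2) ≤ (Th a Q0 k0 + Th b Q1 k1) / 2 + W / 2 := by
  obtain ⟨X, hX⟩ : ∃ X, X = √Q0 := ⟨_, rfl⟩
  obtain ⟨Y, hY⟩ : ∃ Y, Y = √Q1 := ⟨_, rfl⟩
  obtain ⟨Z, hZ⟩ : ∃ Z, Z = √(a - b + Q0) := ⟨_, rfl⟩
  have hX0 : 0 ≤ X := by rw [hX]; exact Real.sqrt_nonneg _
  have hY0 : 0 ≤ Y := by rw [hY]; exact Real.sqrt_nonneg _
  have hZ0 : 0 ≤ Z := by rw [hZ]; exact Real.sqrt_nonneg _
  have hX2 : X ^ 2 = Q0 := by rw [hX]; exact Real.sq_sqrt hQ0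
  have hY2 : Y ^ 2 = Q1 := by rw [hY]; exact Real.sq_sqrt hQ1
  have hZ2 : Z ^ 2 = (a - b) + X ^ 2 := by rw [hX2, hZ]; exact Real.sq_sqrt (by linarith)
  have hYZ : Y ≤ Z := by rw [hY, hZ]; exact Real.sqrt_le_sqrt hQ
  rw [← hZ, ← hY] at hW
  -- the support part
  have hF : (X ^ 2 + Y ^ 2) * Real.log (1 / ((k0 + k1) / 2)) - X ^ 2 * Real.log (1 / k0) -
      Y ^ 2 * Real.log (1 / k1) ≤ 2 * (max (X - Y) 0) ^ 2 := by
    rcases eq_or_lt_of_le (hk1.trans hk) with h | h
    · have h1 : k1 = 0 := by linarith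
      rw [hX2, hY2, hkQ0 h.symm, hkQ1 h1]
      simp only [zero_mul, add_zero, sub_zero]
      positivity
    · exact fk X Y k0 k1 hX0 hY0 hk1 hk h (fun h1 => by
        have := hkQ1 h1
        rw [hY, this, Real.sqrt_zero])
  rcases eq_or_lt_of_le (hb.trans hba) with h | ha
  · -- a = 0
    have hb0 : b = 0 := by linarith
    rw [hb0, ← h] at hZ2 ⊢
    have hZX : Z = X := by
      have : Z ^ 2 = X ^ 2 := by rw [hZ2]; ring
      exact (pow_left_inj₀ hZ0 hX0 (by norm_num)).1 this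
    rw [hZX] at hW
    have h1 : (max (X - Y) 0) ^ 2 ≤ (X - Y) ^ 2 := by
      rcases le_total (X - Y) 0 with h2 | h2
      · rw [max_eq_right h2, zero_pow (by norm_num)]; exact sq_nonneg _
      · rw [max_eq_left h2]
    unfold Th
    rw [show ((0 : ℝ) + 0) / 2 = 0 by norm_num, phi_zero, psi_zero]
    simp only [zero_mul, Real.sqrt_zero, mul_zero, sub_zero, zero_add]
    rw [hX2, hY2] at hF
    have h2 : 0 ≤ (X - Y) ^ 2 := sq_nonneg _
    nlinarith
  · obtain ⟨x, hx⟩ : ∃ x, x = b / a := ⟨_, rfl⟩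
    have hxa : b = x * a := by rw [hx]; field_simp
    have hx0 : 0 ≤ x := by rw [hx]; positivity
    have hx1 : x ≤ 1 := by rw [hx, div_le_one ha]; exact hba
    obtain ⟨p1, p2, p3, p4⟩ := psi_facts a x ha ha1 hx0 hx1
    rw [← hxa] at p2 p3 p4
    have hs2 := s2_nonneg a b ha.le hb
    obtain ⟨s2, hs2'⟩ : ∃ s2, s2 = 2 * phi ((a + b) / 2) - phi a - phi b := ⟨_, rfl⟩
    rw [← hs2'] at hs2 p4
    have hpa : 0 < psi a := by linarith
    obtain ⟨al, hal⟩ : ∃ al, al = √(psi a) := ⟨_, rfl⟩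
    obtain ⟨r, hr⟩ : ∃ r, r = √(psi b / psi a) := ⟨_, rfl⟩
    obtain ⟨s, hs⟩ : ∃ s, s = √s2 := ⟨_, rfl⟩
    have hal0 : 0 < al := by rw [hal]; exact Real.sqrt_pos.2 hpa
    have hal2 : al ^ 2 = psi a := by rw [hal]; exact Real.sq_sqrt hpa.le
    have hr0 : 0 ≤ r := by rw [hr]; exact Real.sqrt_nonneg _
    have hr2 : r ^ 2 = psi b / psi a := by rw [hr]; exact Real.sq_sqrt (by positivity)
    have hr1 : r ≤ 1 := by
      rw [hr]
      exact Real.sqrt_le_one.2 ((div_le_one hpa).2 p3)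
    have hs0 : 0 ≤ s := by rw [hs]; exact Real.sqrt_nonneg _
    have hss : s ^ 2 = s2 := by rw [hs]; exact Real.sq_sqrt hs2
    have hral : (r * al) ^ 2 = psi b := by rw [mul_pow, hr2, hal2]; field_simp
    have hC : s ^ 2 ≤ (a - b) * (1 - r ^ 2) * (1 - r ^ 2 / 8) := by
      rw [hss, hr2]
      have e1 : (a - b) * (1 - psi b / psi a) * (1 - psi b / psi a / 8) =
          (a - b) * (psi a - psi b) * (psi a - psi b / 8) / psi a ^ 2 := by
        field_simp
      rw [e1, le_div_iff₀ (by positivity)]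
      exact p4
    have hcore := core al r s (a - b) X Y Z hal0 hr0 hr1 hs0 (by rw [hal2]; linarith) (by linarith)
      hC hX0 hY0 hZ2 hZ0 hYZ
    have hsq : (al ^ 2 + (r * al) ^ 2 + s ^ 2) = 2 * psi ((a + b) / 2) := by
      rw [hal2, hral, hss, hs2']
      exact psi_mid a b
    rw [hsq] at hcore
    have e0 : √(psi a * Q0) = al * X := by
      rw [Real.sqrt_mul hpa.le, ← hal, ← hX]
    have e1 : √(psi b * Q1) = r * al * Y := by
      have h1 : √(psi b) = r * al := by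
        rw [← hral]
        exact Real.sqrt_sq (by positivity)
      rw [Real.sqrt_mul p2, h1, ← hY]
    have e2 : √(2 * psi ((a + b) / 2) * (X ^ 2 + Y ^ 2)) =
        2 * √(psi ((a + b) / 2) * ((Q0 + Q1) / 2)) := by
      have h1 : 2 * psi ((a + b) / 2) * (X ^ 2 + Y ^ 2) =
          2 ^ 2 * (psi ((a + b) / 2) * ((Q0 + Q1) / 2)) := by rw [hX2, hY2]; ring
      rw [h1, Real.sqrt_mul (by norm_num), Real.sqrt_sq (by norm_num)]
    rw [e2] at hcore
    have e3 : phi ((a + b) / 2) = (s2 + phi a + phi b) / 2 := by rw [hs2']; ring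
    unfold Th
    rw [e0, e1, e3, ← hss]
    rw [hX2, hY2] at hF
    nlinarith

end Pool.Agent.helper98.DNX
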