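import Pool.Agent.helper65.HC.Basic
import Pool.Agent.helper98.DNX.TP

/-! # The functional inequality on the cube -/

set_option autoImplicit false
set_option linter.unusedVariables false

namespace Pool.Agent.helper98.DNX

open Finset Pool.Agent.helper65.HC

/-- mean of `F (h x)` -/
noncomputable def avg {d : ℕ} (F : ℝ → ℝ) (h : V d → ℝ) : ℝ := (∑ x, F (h x)) / 2 ^ d

noncomputable def F1 (t : ℝ) : ℝ := if t = 1 then 1 else 0

noncomputable def F2 (t : ℝ) : ℝ := if t = 1 then 0 else t ^ 2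

noncomputable def F3 (t : ℝ) : ℝ := if 0 < t then 1 else 0

lemma F1_nonneg (t : ℝ) : 0 ≤ F1 t := by unfold F1; split_ifs <;> norm_num

lemma F1_le (t : ℝ) : F1 t ≤ 1 := by unfold F1; split_ifs <;> norm_num

lemma F2_nonneg (t : ℝ) : 0 ≤ F2 t := by
  unfold F2; split_ifs
  · exact le_rfl
  · positivity

lemma F3_nonneg (t : ℝ) : 0 ≤ F3 t := by unfold F3; split_ifs <;> norm_num

lemma F3_le (t : ℝ) : F3 t ≤ 1 := by unfold F3; split_ifs <;> norm_num

lemma F1_mono (s t : ℝ) (hst : s ≤ t) (ht : t ≤ 1) : F1 s ≤ F1 t := by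
  unfold F1
  split_ifs with h1 h2
  · exact le_rfl
  · exact absurd (le_antisymm ht (by linarith)) h2
  · norm_num
  · exact le_rfl

lemma F3_mono (s t : ℝ) (hst : s ≤ t) : F3 s ≤ F3 t := by
  unfold F3
  split_ifs with h1 h2
  · exact le_rfl
  · exact absurd (lt_of_lt_of_le h1 hst) h2
  · norm_num
  · exact le_rfl

lemma F3_F2 (t : ℝ) (ht : 0 ≤ t) (h : F3 t = 0) : F2 t = 0 := by
  unfold F3 at h
  split_ifs at h with h1
  · norm_num at h
  · have : t = 0 := le_antisymm (not_lt.1 h1) ht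
    rw [this]; simp [F2]

section

variable {d : ℕ}

lemma avg_nonneg (F : ℝ → ℝ) (h : V d → ℝ) (hF : ∀ t, 0 ≤ F t) : 0 ≤ avg F h := by
  unfold avg
  apply div_nonneg (Finset.sum_nonneg fun x _ => hF _) (by positivity)

lemma avg_le (F G : ℝ → ℝ) (h g : V d → ℝ) (hF : ∀ x, F (h x) ≤ G (g x)) : avg F h ≤ avg G g := by
  unfold avg
  apply div_le_div_of_nonneg_right (Finset.sum_le_sum fun x _ => hF x) (by positivity)

lemma avg_le_one (F : ℝ → ℝ) (h : V d → ℝ) (hF : ∀ t, F t ≤ 1) : avg F h ≤ 1 := by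
  unfold avg
  rw [div_le_one (by positivity)]
  calc ∑ x, F (h x) ≤ ∑ _x : V d, (1 : ℝ) := Finset.sum_le_sum fun x _ => hF _
    _ = 2 ^ d := by simp

lemma avg_eq_zero (F G : ℝ → ℝ) (h : V d → ℝ) (hF : ∀ t, 0 ≤ F t)
    (hFG : ∀ x, F (h x) = 0 → G (h x) = 0) (h0 : avg F h = 0) : avg G h = 0 := by
  unfold avg at h0 ⊢
  have hN : (0 : ℝ) < 2 ^ d := by positivity
  have h1 : ∑ x, F (h x) = 0 := by
    rcases div_eq_zero_iff.1 h0 with h | h
    · exact h
    · exact absurd h hN.ne'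
  rw [Finset.sum_eq_zero_iff_of_nonneg (fun x _ => hF _)] at h1
  rw [Finset.sum_eq_zero (fun x hx => hFG x (h1 x hx)), zero_div]

lemma mm (a b c e : ℝ) :
    (max a b - max c e) ^ 2 + (min a b - min c e) ^ 2 ≤ (a - c) ^ 2 + (b - e) ^ 2 := by
  rcases le_total a b with h | h <;> rcases le_total c e with h' | h'
  · rw [max_eq_right h, max_eq_right h', min_eq_left h, min_eq_left h']; linarith
  · rw [max_eq_right h, max_eq_left h', min_eq_left h, min_eq_right h']
    nlinarith [mul_nonneg (sub_nonneg.2 h) (sub_nonneg.2 h')]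
  · rw [max_eq_left h, max_eq_right h', min_eq_right h, min_eq_left h']
    nlinarith [mul_nonneg (sub_nonneg.2 h) (sub_nonneg.2 h')]
  · rw [max_eq_left h, max_eq_left h', min_eq_right h, min_eq_right h']

lemma D_mm (f g : V d → ℝ) :
    D (fun z => max (f z) (g z)) + D (fun z => min (f z) (g z)) ≤ D f + D g := by
  unfold D
  rw [← Finset.sum_add_distrib, ← Finset.sum_add_distrib]
  refine Finset.sum_le_sum fun x _ => ?_
  rw [← Finset.sum_add_distrib, ← Finset.sum_add_distrib]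
  exact Finset.sum_le_sum fun i _ => mm _ _ _ _

lemma avg_split (F : ℝ → ℝ) (h : V (d + 1) → ℝ) :
    avg F h = (avg F (fun z : V d => max (h (Fin.cons false z)) (h (Fin.cons true z))) +
      avg F (fun z : V d => min (h (Fin.cons false z)) (h (Fin.cons true z)))) / 2 := by
  unfold avg
  rw [sum_cons (fun x => F (h x))]
  have e : (∑ z : V d, F (h (Fin.cons false z))) + ∑ z : V d, F (h (Fin.cons true z)) =
      (∑ z : V d, F (max (h (Fin.cons false z)) (h (Fin.cons true z)))) +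
      ∑ z : V d, F (min (h (Fin.cons false z)) (h (Fin.cons true z))) := by
    rw [← Finset.sum_add_distrib, ← Finset.sum_add_distrib]
    refine Finset.sum_congr rfl fun z _ => ?_
    rcases le_total (h (Fin.cons false z)) (h (Fin.cons true z)) with h' | h'
    · rw [max_eq_right h', min_eq_left h', add_comm]
    · rw [max_eq_left h', min_eq_right h']
  rw [e, pow_succ]
  field_simp

lemma mink (N p q r : ℝ) (hN : 0 < N) (hp : 0 ≤ p) (hq : 0 ≤ q) (hr : r ^ 2 ≤ p * q) :
    (√(p / N) - √(q / N)) ^ 2 ≤ (p - 2 * r + q) / N := by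
  have h1 : √(p / N) ^ 2 = p / N := Real.sq_sqrt (by positivity)
  have h2 : √(q / N) ^ 2 = q / N := Real.sq_sqrt (by positivity)
  have h3 : r / N ≤ √(p / N) * √(q / N) := by
    rw [← Real.sqrt_mul (by positivity)]
    apply Real.le_sqrt_of_sq_le
    have e : p / N * (q / N) = p * q / N ^ 2 := by field_simp
    rw [e, div_pow]
    gcongr
  have e : (p - 2 * r + q) / N = p / N - 2 * (r / N) + q / N := by ring
  rw [e]
  nlinarith

lemma W_le (M m : V d → ℝ) (hmM : ∀ z, m z ≤ M z) (hM : ∀ z, M z ≤ 1) :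
    (√(avg F1 M - avg F1 m + avg F2 M) - √(avg F2 m)) ^ 2 ≤ (∑ z, (M z - m z) ^ 2) / 2 ^ d := by
  have hN : (0 : ℝ) < 2 ^ d := by positivity
  obtain ⟨A, hA⟩ : ∃ A : V d → ℝ, A = fun z => if m z = 1 then 0 else M z := ⟨_, rfl⟩
  obtain ⟨B, hB⟩ : ∃ B : V d → ℝ, B = fun z => if m z = 1 then 0 else m z := ⟨_, rfl⟩
  have hM1 : ∀ z, m z = 1 → M z = 1 := fun z h => le_antisymm (hM z) (by rw [← h]; exact hmM z)
  have eA : ∀ z, F1 (M z) - F1 (m z) + F2 (M z) = A z ^ 2 := by
    intro z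
    rw [hA]
    by_cases h : m z = 1
    · simp [F1, F2, h, hM1 z h]
    · by_cases h' : M z = 1
      · simp [F1, F2, h, h']
      · simp [F1, F2, h, h']
  have eB : ∀ z, F2 (m z) = B z ^ 2 := by
    intro z
    rw [hB]
    by_cases h : m z = 1
    · simp [F2, h]
    · simp [F2, h]
  have eAB : ∀ z, (M z - m z) ^ 2 = A z ^ 2 - 2 * (A z * B z) + B z ^ 2 := by
    intro z
    rw [hA, hB]
    by_cases h : m z = 1
    · simp [h, hM1 z h]
    · simp only [h, if_false]; ring
  have sA : avg F1 M - avg F1 m + avg F2 M = (∑ z, A z ^ 2) / 2 ^ d := by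
    unfold avg
    rw [← sub_div, ← add_div, ← Finset.sum_sub_distrib, ← Finset.sum_add_distrib]
    rw [Finset.sum_congr rfl (fun z _ => eA z)]
  have sB : avg F2 m = (∑ z, B z ^ 2) / 2 ^ d := by
    unfold avg
    rw [Finset.sum_congr rfl (fun z _ => eB z)]
  have sAB : ∑ z, (M z - m z) ^ 2 = ∑ z, A z ^ 2 - 2 * ∑ z, A z * B z + ∑ z, B z ^ 2 := by
    rw [Finset.sum_congr rfl (fun z _ => eAB z), Finset.sum_add_distrib, Finset.sum_sub_distrib,
      Finset.mul_sum]
  rw [sA, sB, sAB]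
  exact mink _ _ _ _ hN (Finset.sum_nonneg fun _ _ => sq_nonneg _)
    (Finset.sum_nonneg fun _ _ => sq_nonneg _) (Finset.sum_mul_sq_le_sq_mul_sq _ _ _)

end

theorem ind : ∀ (d : ℕ) (h : V d → ℝ), (∀ x, 0 ≤ h x) → (∀ x, h x ≤ 1) →
    Th (avg F1 h) (avg F2 h) (avg F3 h) ≤ D h / (2 * 2 ^ d)
  | 0, h, h0, h1 => by
    have hD : D h = 0 := by unfold D; simp
    rw [hD, zero_div]
    obtain ⟨t, ht⟩ : ∃ t, t = h default := ⟨_, rfl⟩
    have e : ∀ F : ℝ → ℝ, avg F h = F t := by
      intro F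
      unfold avg
      have hx : ∀ x : V 0, F (h x) = F t := by
        intro x
        rw [ht, Subsingleton.elim x default]
      rw [Finset.sum_congr rfl (fun x _ => hx x)]
      simp
    rw [e, e, e]
    have ht0 : 0 ≤ t := by rw [ht]; exact h0 _
    unfold Th F1 F2 F3
    by_cases h2 : t = 1
    · simp [h2, phi_one]
    · by_cases h3 : 0 < t
      · simp [h2, h3, phi_zero, psi_zero]
      · have : t = 0 := le_antisymm (not_lt.1 h3) ht0
        simp [this, phi_zero, psi_zero]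
  | d + 1, h, h0, h1 => by
    obtain ⟨M, hM⟩ : ∃ M : V d → ℝ, M = fun z => max (h (Fin.cons false z)) (h (Fin.cons true z)) :=
      ⟨_, rfl⟩
    obtain ⟨m, hm⟩ : ∃ m : V d → ℝ, m = fun z => min (h (Fin.cons false z)) (h (Fin.cons true z)) :=
      ⟨_, rfl⟩
    have hM0 : ∀ z, 0 ≤ M z := fun z => by rw [hM]; exact le_max_of_le_left (h0 _)
    have hM1 : ∀ z, M z ≤ 1 := fun z => by rw [hM]; exact max_le (h1 _) (h1 _)
    have hm0 : ∀ z, 0 ≤ m z := fun z => by rw [hm]; exact le_min (h0 _) (h0 _)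
    have hm1 : ∀ z, m z ≤ 1 := fun z => by rw [hm]; exact min_le_of_left_le (h1 _)
    have hmM : ∀ z, m z ≤ M z := fun z => by rw [hm, hM]; exact min_le_max
    have i0 := ind d M hM0 hM1
    have i1 := ind d m hm0 hm1
    have e (F : ℝ → ℝ) : avg F h = (avg F M + avg F m) / 2 := by rw [hM, hm]; exact avg_split F h
    rw [e, e, e]
    have hN : (0 : ℝ) < 2 ^ d := by positivity
    have hD : D M + D m + 2 * ∑ z, (M z - m z) ^ 2 ≤ D h := by
      rw [D_cons h]
      have h2 := D_mm (fun z : V d => h (Fin.cons false z)) (fun z => h (Fin.cons true z))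
      have h3 : ∑ z, (M z - m z) ^ 2 =
          ∑ z : V d, (h (Fin.cons false z) - h (Fin.cons true z)) ^ 2 := by
        refine Finset.sum_congr rfl fun z _ => ?_
        rw [hM, hm]
        rcases le_total (h (Fin.cons false z)) (h (Fin.cons true z)) with h' | h'
        · simp only [max_eq_right h', min_eq_left h']; ring
        · simp only [max_eq_left h', min_eq_right h']
      rw [h3, hM, hm]
      linarith
    have ht := tp (avg F1 M) (avg F1 m) (avg F2 M) (avg F2 m) (avg F3 M) (avg F3 m)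
      ((∑ z, (M z - m z) ^ 2) / 2 ^ d) (avg_nonneg _ _ F1_nonneg)
      (avg_le _ _ _ _ fun z => F1_mono _ _ (hmM z) (hM1 z)) (avg_le_one _ _ F1_le)
      (avg_nonneg _ _ F2_nonneg) (avg_nonneg _ _ F2_nonneg) (avg_nonneg _ _ F3_nonneg)
      (avg_le _ _ _ _ fun z => F3_mono _ _ (hmM z))
      (avg_eq_zero _ _ _ F3_nonneg fun z hz => F3_F2 _ (hM0 z) hz)
      (avg_eq_zero _ _ _ F3_nonneg fun z hz => F3_F2 _ (hm0 z) hz)
      (by
        unfold avg
        rw [← sub_div, ← add_div, ← Finset.sum_sub_distrib, ← Finset.sum_add_distrib]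
        apply div_le_div_of_nonneg_right (Finset.sum_le_sum fun z _ => ?_) (by positivity)
        unfold F1 F2
        by_cases h2 : m z = 1
        · have h3 : M z = 1 := le_antisymm (hM1 z) (by rw [← h2]; exact hmM z)
          simp [h2, h3]
        · by_cases h3 : M z = 1
          · simp only [h2, h3, if_true, if_false]
            nlinarith [hm0 z, hm1 z]
          · simp only [h2, h3, if_false]
            have := pow_le_pow_left₀ (hm0 z) (hmM z) 2
            linarith)
      (W_le M m hmM hM1)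
    refine ht.trans ?_
    have h5 : D h / (2 * 2 ^ (d + 1)) = (D h / (2 * 2 ^ d)) / 2 := by
      rw [pow_succ]; field_simp
    rw [h5]
    have h6 : (D M + D m + 2 * ∑ z, (M z - m z) ^ 2) / (2 * 2 ^ d) ≤ D h / (2 * 2 ^ d) :=
      div_le_div_of_nonneg_right hD (by positivity)
    have h7 : (D M + D m + 2 * ∑ z, (M z - m z) ^ 2) / (2 * 2 ^ d) =
        D M / (2 * 2 ^ d) + D m / (2 * 2 ^ d) + (∑ z, (M z - m z) ^ 2) / 2 ^ d := by
      field_simp
    rw [h7] at h6
    linarith

end Pool.Agent.helper98.DNX
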