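import Pool.Agent.helper65.HC.Ball
import Pool.Agent.helper98.DNX.Ind
import Pool.Agent.helper98.DNX.Fin

/-! # The lower bound for `d - λ` -/

set_option autoImplicit false
set_option linter.unusedVariables false

namespace Pool.Agent.helper98.DNX

open Finset Pool.Agent.helper65.HC

/-- the function `1 - |f|/mean` of an eigenfunction -/
theorem exists_v {d : ℕ} {U : Finset (V d)} {t : ℝ} (h : IsEig U t) :
    ∃ v : V d → ℝ, (∀ x, v x ≤ 1) ∧ (∀ x, x ∉ U → v x = 1) ∧
      4 * ∑ x, v x ^ 2 ≤ 2 * (d - t) * (2 ^ d + ∑ x, v x ^ 2) ∧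
      D v ≤ 2 * (d - t) * (2 ^ d + ∑ x, v x ^ 2) := by
  obtain ⟨f, hf, hpos, hD⟩ := eig_D h
  have hN : (0 : ℝ) < 2 ^ d := by positivity
  obtain ⟨m, hm⟩ : ∃ m : ℝ, m = (∑ x, |f x|) / 2 ^ d := ⟨_, rfl⟩
  have hsum : ∑ x, |f x| = m * 2 ^ d := by rw [hm]; field_simp
  have hm0 : 0 < m := by
    rw [hm]
    apply div_pos _ hN
    by_contra hc
    push Not at hc
    have h0 : ∑ x, |f x| = 0 := le_antisymm hc (Finset.sum_nonneg (fun _ _ => abs_nonneg _))
    rw [Finset.sum_eq_zero_iff_of_nonneg (fun _ _ => abs_nonneg _)] at h0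
    have : ∑ x, f x ^ 2 = 0 := Finset.sum_eq_zero (fun x hx => by
      have := abs_eq_zero.1 (h0 x hx)
      rw [this]; norm_num)
    linarith
  obtain ⟨v, hv⟩ : ∃ v : V d → ℝ, v = fun x => 1 - |f x| / m := ⟨_, rfl⟩
  have hsv : ∑ x, v x = 0 := by
    rw [hv]
    simp only
    rw [Finset.sum_sub_distrib, ← Finset.sum_div, hsum]
    simp
    field_simp
    ring
  have hv2 : ∑ x, v x ^ 2 = (∑ x, f x ^ 2) / m ^ 2 - 2 ^ d := by
    have e : ∀ x, v x ^ 2 = 1 - 2 / m * |f x| + f x ^ 2 / m ^ 2 := by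
      intro x
      rw [hv]
      simp only
      rw [← sq_abs (f x)]
      field_simp
      ring
    rw [Finset.sum_congr rfl (fun x _ => e x), Finset.sum_add_distrib, Finset.sum_sub_distrib,
      ← Finset.mul_sum, ← Finset.sum_div, hsum]
    simp
    field_simp
    ring
  have hDv : D v ≤ 2 * (d - t) * (2 ^ d + ∑ x, v x ^ 2) := by
    have e : D v = D (fun x => |f x|) / m ^ 2 := by
      unfold D
      rw [Finset.sum_div]
      refine Finset.sum_congr rfl (fun x _ => ?_)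
      rw [Finset.sum_div]
      refine Finset.sum_congr rfl (fun i _ => ?_)
      rw [hv]
      simp only
      field_simp
      ring
    rw [e, hv2]
    have h1 : D (fun x => |f x|) ≤ 2 * (d - t) * ∑ x, f x ^ 2 := by
      rw [← hD]
      exact D_abs f
    have h2 : 2 * ((d : ℝ) - t) * (2 ^ d + ((∑ x, f x ^ 2) / m ^ 2 - 2 ^ d)) =
        (2 * (d - t) * ∑ x, f x ^ 2) / m ^ 2 := by ring
    rw [h2]
    gcongr
  have hPo := poincare d v
  rw [hsv] at hPo
  have h0 : (4 : ℝ) * 0 ^ 2 / 2 ^ d = 0 := by simp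
  rw [h0, add_zero] at hPo
  refine ⟨v, fun x => ?_, fun x hx => ?_, hPo.trans hDv, hDv⟩
  · rw [hv]
    have : 0 ≤ |f x| / m := by positivity
    simp only
    linarith
  · rw [hv]
    simp [hf x hx]

theorem lower {d : ℕ} {U : Finset (V d)} {t : ℝ} (h : IsEig U t) (s : ℕ) (hs1 : 1 ≤ s)
    (hs : U.card + s = 2 ^ d) :
    (s : ℝ) / 2 ^ d * (Real.logb 2 (2 ^ d / s) - 600) ≤ d - t := by
  classical
  obtain ⟨v, hv1, hvS, hP, hDv⟩ := exists_v h
  have hN : (0 : ℝ) < 2 ^ d := by positivity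
  obtain ⟨N, hNd⟩ : ∃ N : ℝ, N = 2 ^ d := ⟨_, rfl⟩
  have hs0 : (0 : ℝ) < s := by exact_mod_cast hs1
  obtain ⟨m, hm⟩ : ∃ m : ℝ, m = (s : ℝ) / 2 ^ d := ⟨_, rfl⟩
  obtain ⟨L, hL⟩ : ∃ L, L = Real.logb 2 (2 ^ d / s) := ⟨_, rfl⟩
  obtain ⟨M, hM⟩ : ∃ M, M = ∑ x, v x ^ 2 := ⟨_, rfl⟩
  obtain ⟨g, hg⟩ : ∃ g : ℝ, g = d - t := ⟨_, rfl⟩
  have hm0 : 0 < m := by rw [hm]; positivity
  have hl1 : 0.6931471803 < Real.log 2 := Real.log_two_gt_d9
  have hlm : Real.log m = -(L * Real.log 2) := by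
    rw [hL, Real.logb, hm, div_mul_cancel₀ _ (by linarith : Real.log 2 ≠ 0), ← Real.log_inv, inv_div]
  have hcard : (Uᶜ).card = s := by
    rw [Finset.card_compl]
    have : Fintype.card (V d) = 2 ^ d := by simp
    rw [this]
    omega
  have hsM : (s : ℝ) ≤ M := by
    rw [hM, ← hcard]
    calc ((Uᶜ).card : ℝ) = ∑ x ∈ Uᶜ, v x ^ 2 := by
          rw [Finset.sum_congr rfl (fun x hx => by rw [hvS x (Finset.mem_compl.1 hx)])]
          simp
      _ ≤ ∑ x, v x ^ 2 :=
          Finset.sum_le_sum_of_subset_of_nonneg (Finset.subset_univ _) (fun x _ _ => sq_nonneg _)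
  rw [← hM, ← hg] at hP hDv
  rw [← hm, ← hL, ← hg]
  have hM0 : 0 < M := by linarith
  have hg0 : 0 < g := by
    by_contra hc
    push Not at hc
    have : 2 * g * (2 ^ d + M) ≤ 0 :=
      mul_nonpos_of_nonpos_of_nonneg (by linarith) (by linarith)
    linarith
  rcases le_or_gt L 600 with hL6 | hL6
  · have : m * (L - 600) ≤ 0 := mul_nonpos_of_nonneg_of_nonpos hm0.le (by linarith)
    linarith
  rcases le_or_gt (m * L) g with hgL | hgL
  · have : m * (L - 600) ≤ m * L := mul_le_mul_of_nonneg_left (by linarith) hm0.le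
    linarith
  have hL0 : 0 < L := by linarith
  -- powers of two
  have hmL : m * 2 ^ L = 1 := by
    have h1 : (2 : ℝ) ^ L = 2 ^ d / s := by
      rw [hL, Real.rpow_logb (by norm_num) (by norm_num) (by positivity)]
    rw [h1, hm]
    field_simp
  have h6 : L ^ 2 ≤ 4 * 2 ^ L := by
    have h8 := one_add_mul_self_le_rpow_one_add (s := 1) (by norm_num) (p := L / 2) (by linarith)
    rw [mul_one, show (1 : ℝ) + 1 = 2 by norm_num] at h8
    have h9 : (2 : ℝ) ^ L = (2 ^ (L / 2)) ^ 2 := by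
      rw [← Real.rpow_natCast, ← Real.rpow_mul (by norm_num)]
      norm_num
    rw [h9]
    nlinarith
  have hmL2 : m * L ^ 2 ≤ 4 := by
    calc m * L ^ 2 ≤ m * (4 * 2 ^ L) := mul_le_mul_of_nonneg_left h6 hm0.le
      _ = 4 * (m * 2 ^ L) := by ring
      _ = 4 := by rw [hmL]; norm_num
  have hmL1 : m * L ≤ 1 := by
    have : m * L * 600 ≤ m * L ^ 2 := by nlinarith [mul_pos hm0 hL0]
    nlinarith
  have hg1 : g ≤ 1 := by linarith
  have hMg : M ≤ g * 2 ^ d := by nlinarith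
  -- the truncation
  obtain ⟨τ, hτ⟩ : ∃ τ : ℝ, τ = 1 / L := ⟨_, rfl⟩
  have hτ0 : 0 < τ := by rw [hτ]; positivity
  have hτ1 : τ < 1 := by rw [hτ, div_lt_one hL0]; linarith
  obtain ⟨w, hw⟩ : ∃ w : V d → ℝ, w = fun x => max ((v x - τ) / (1 - τ)) 0 := ⟨_, rfl⟩
  have h1τ : 0 < 1 - τ := by linarith
  have hw0 : ∀ x, 0 ≤ w x := fun x => by rw [hw]; exact le_max_right _ _
  have hw1 : ∀ x, w x ≤ 1 := fun x => by
    rw [hw]
    refine max_le ?_ (by norm_num)
    rw [div_le_one h1τ]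
    linarith [hv1 x]
  have hi := ind d w hw0 hw1
  have hDw : D w ≤ D v / (1 - τ) ^ 2 := by
    unfold D
    rw [Finset.sum_div]
    refine Finset.sum_le_sum fun x _ => ?_
    rw [Finset.sum_div]
    refine Finset.sum_le_sum fun i _ => ?_
    rw [← div_pow, hw]
    apply sq_le_sq.2
    have h1 := abs_max_sub_max_le_abs ((v x - τ) / (1 - τ)) ((v (Pool.Agent.helper65.HC.flip i x) - τ) / (1 - τ)) 0
    have h2 : (v x - τ) / (1 - τ) - (v (Pool.Agent.helper65.HC.flip i x) - τ) / (1 - τ) =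
        (v x - v (Pool.Agent.helper65.HC.flip i x)) / (1 - τ) := by ring
    rw [h2] at h1
    exact h1
  have he : m ≤ avg F1 w := by
    unfold avg
    rw [hm]
    apply div_le_div_of_nonneg_right _ hN.le
    rw [← hcard]
    calc ((Uᶜ).card : ℝ) = ∑ x ∈ Uᶜ, F1 (w x) := by
          rw [Finset.sum_congr rfl (g := fun _ => (1 : ℝ)) (fun x hx => ?_)]
          · simp
          · have h1 : w x = 1 := by
              rw [hw]
              simp only
              rw [hvS x (Finset.mem_compl.1 hx), div_self h1τ.ne', max_eq_left (by norm_num)]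
            rw [h1]
            simp [F1]
      _ ≤ ∑ x, F1 (w x) :=
          Finset.sum_le_sum_of_subset_of_nonneg (Finset.subset_univ _) (fun x _ _ => F1_nonneg _)
  have hek : avg F1 w ≤ avg F3 w := by
    apply avg_le
    intro x
    unfold F1 F3
    by_cases h1 : w x = 1
    · simp [h1]
    · simp only [h1, if_false]
      split_ifs <;> norm_num
  have hk : avg F3 w ≤ m * L ^ 3 := by
    have h1 : avg F3 w ≤ (M * L ^ 2) / 2 ^ d := by
      unfold avg
      apply div_le_div_of_nonneg_right _ hN.le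
      rw [hM, Finset.sum_mul]
      refine Finset.sum_le_sum fun x _ => ?_
      unfold F3
      split_ifs with h2
      · have h3 : τ < v x := by
          rw [hw] at h2
          simp only [lt_max_iff, lt_irrefl, or_false] at h2
          rw [div_pos_iff_of_pos_right h1τ] at h2
          linarith
        have h4 : 1 < v x * L := by
          have : τ * L = 1 := by rw [hτ]; field_simp
          nlinarith
        have h5 : (1 : ℝ) ≤ (v x * L) ^ 2 := one_le_pow₀ h4.le
        calc (1 : ℝ) ≤ (v x * L) ^ 2 := h5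
          _ = v x ^ 2 * L ^ 2 := by ring
      · positivity
    refine h1.trans ?_
    rw [div_le_iff₀ hN]
    have h2 : M * L ^ 2 ≤ (g * 2 ^ d) * L ^ 2 := mul_le_mul_of_nonneg_right hMg (by positivity)
    have h3 : (g * 2 ^ d) * L ^ 2 ≤ (m * L * 2 ^ d) * L ^ 2 := by
      apply mul_le_mul_of_nonneg_right _ (by positivity)
      exact mul_le_mul_of_nonneg_right hgL.le hN.le
    calc M * L ^ 2 ≤ (m * L * 2 ^ d) * L ^ 2 := h2.trans h3
      _ = m * L ^ 3 * 2 ^ d := by ring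
  have hfin := fin_real m L (avg F1 w) (avg F2 w) (avg F3 w) (D w / (2 * 2 ^ d)) hm0 hL6.le hlm he hek hk
    (avg_nonneg _ _ F2_nonneg) hi
  -- conclusion
  have h7 : D w / (2 * 2 ^ d) ≤ g * (1 + g) / (1 - τ) ^ 2 := by
    have h8 : D w / (2 * 2 ^ d) ≤ D v / (1 - τ) ^ 2 / (2 * 2 ^ d) :=
      div_le_div_of_nonneg_right hDw (by positivity)
    refine h8.trans ?_
    rw [div_div, div_le_div_iff₀ (by positivity) (by positivity)]
    have h9 : D v ≤ 2 * g * (2 ^ d + g * 2 ^ d) := by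
      refine hDv.trans ?_
      apply mul_le_mul_of_nonneg_left (by linarith) (by positivity)
    calc D v * (1 - τ) ^ 2 ≤ 2 * g * (2 ^ d + g * 2 ^ d) * (1 - τ) ^ 2 :=
          mul_le_mul_of_nonneg_right h9 (by positivity)
      _ = g * (1 + g) * ((1 - τ) ^ 2 * (2 * 2 ^ d)) := by ring
  have h8 : m * (L - 512) * (1 - τ) ^ 2 ≤ g * (1 + g) := by
    have := hfin.trans h7
    rwa [le_div_iff₀ (by positivity)] at this
  have h9 : m * (L - 514) ≤ m * (L - 512) * (1 - τ) ^ 2 := by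
    have h10 : (1 - 2 * τ) ≤ (1 - τ) ^ 2 := by nlinarith [sq_nonneg τ]
    have h11 : m * (L - 512) * (1 - 2 * τ) ≤ m * (L - 512) * (1 - τ) ^ 2 :=
      mul_le_mul_of_nonneg_left h10 (mul_nonneg hm0.le (by linarith))
    have h12 : m * (L - 512) * (1 - 2 * τ) = m * (L - 512 - 2 * (L * τ) + 1024 * τ) := by ring
    have h13 : L * τ = 1 := by rw [hτ]; field_simp
    rw [h13] at h12
    have h14 : m * (L - 514) ≤ m * (L - 512 - 2 * 1 + 1024 * τ) := by
      apply mul_le_mul_of_nonneg_left _ hm0.le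
      linarith
    linarith
  have h10 : g ^ 2 ≤ 4 * m := by
    have h11 : g ^ 2 ≤ (m * L) ^ 2 := pow_le_pow_left₀ hg0.le hgL.le 2
    have h12 : (m * L) ^ 2 = m * (m * L ^ 2) := by ring
    have h13 : m * (m * L ^ 2) ≤ m * 4 := mul_le_mul_of_nonneg_left hmL2 hm0.le
    linarith
  nlinarith

end Pool.Agent.helper98.DNX
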