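import Mathlib

/-! # The one-variable inequality -/

set_option autoImplicit false

namespace Pool.Agent.helper98.DNX

/-- the function -/
noncomputable def kf (x : ℝ) : ℝ :=
  (x ^ 2 - 3 * x) * Real.log 2 + (1 + x) * Real.log (1 + x) - (3 + x) * (x * Real.log x) / 4

/-- its derivative -/
noncomputable def kg (x : ℝ) : ℝ :=
  (2 * x - 3) * Real.log 2 + Real.log (1 + x) + 1 - ((3 + 2 * x) * Real.log x + (3 + x)) / 4

/-- its second derivative -/
noncomputable def kh (x : ℝ) : ℝ :=
  2 * Real.log 2 + 1 / (1 + x) - (2 * Real.log x + (3 + 2 * x) / x + 1) / 4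

lemma kf_deriv (x : ℝ) (h0 : 0 < x) : HasDerivAt kf (kg x) x := by
  have h1 : (1 + x) ≠ 0 := by positivity
  have a1 : HasDerivAt (fun y : ℝ => (y ^ 2 - 3 * y) * Real.log 2) ((2 * x - 3) * Real.log 2) x := by
    have b1 : HasDerivAt (fun y : ℝ => y ^ 2 - 3 * y) (2 * x - 3) x := by
      have c1 := (hasDerivAt_pow 2 x)
      have c2 := (hasDerivAt_id x).const_mul (3 : ℝ)
      refine (c1.sub c2).congr_deriv ?_
      simp
    exact b1.mul_const _
  have a2 : HasDerivAt (fun y : ℝ => (1 + y) * Real.log (1 + y)) (Real.log (1 + x) + 1) x := by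
    have b1 : HasDerivAt (fun y : ℝ => 1 + y) 1 x := by
      simpa using (hasDerivAt_id x).const_add (1 : ℝ)
    have b2 := b1.log h1
    refine (b1.mul b2).congr_deriv ?_
    field_simp
  have a3 : HasDerivAt (fun y : ℝ => (3 + y) * (y * Real.log y) / 4)
      (((3 + 2 * x) * Real.log x + (3 + x)) / 4) x := by
    have b1 : HasDerivAt (fun y : ℝ => 3 + y) 1 x := by
      simpa using (hasDerivAt_id x).const_add (3 : ℝ)
    have b2 : HasDerivAt (fun y : ℝ => y * Real.log y) (Real.log x + 1) x :=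
      Real.hasDerivAt_mul_log h0.ne'
    refine ((b1.mul b2).div_const 4).congr_deriv ?_
    ring
  refine ((a1.add a2).sub a3).congr_deriv ?_
  unfold kg
  ring

lemma kg_deriv (x : ℝ) (h0 : 0 < x) : HasDerivAt kg (kh x) x := by
  have h1 : (1 + x) ≠ 0 := by positivity
  have a1 : HasDerivAt (fun y : ℝ => (2 * y - 3) * Real.log 2) (2 * Real.log 2) x := by
    have b1 : HasDerivAt (fun y : ℝ => 2 * y - 3) 2 x := by
      simpa using ((hasDerivAt_id x).const_mul (2 : ℝ)).sub_const 3
    exact b1.mul_const _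
  have a2 : HasDerivAt (fun y : ℝ => Real.log (1 + y)) (1 / (1 + x)) x := by
    have b1 : HasDerivAt (fun y : ℝ => 1 + y) 1 x := by
      simpa using (hasDerivAt_id x).const_add (1 : ℝ)
    exact b1.log h1
  have a3 : HasDerivAt (fun y : ℝ => ((3 + 2 * y) * Real.log y + (3 + y)) / 4)
      ((2 * Real.log x + (3 + 2 * x) / x + 1) / 4) x := by
    have b1 : HasDerivAt (fun y : ℝ => 3 + 2 * y) 2 x := by
      simpa using ((hasDerivAt_id x).const_mul (2 : ℝ)).const_add 3
    have b2 := Real.hasDerivAt_log h0.ne'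
    have b3 : HasDerivAt (fun y : ℝ => 3 + y) 1 x := by
      simpa using (hasDerivAt_id x).const_add (3 : ℝ)
    refine (((b1.mul b2).add b3).div_const 4).congr_deriv ?_
    field_simp
  have a4 := (((a1.add a2).add_const 1).sub a3)
  refine a4.congr_deriv ?_
  unfold kh
  ring

lemma kh_mono (x y : ℝ) (h0 : 0 < x) (hxy : x ≤ y) (h1 : y ≤ 1) : kh x ≤ kh y := by
  have hy0 : 0 < y := by linarith
  have e : kh y - kh x = -(y - x) / ((1 + x) * (1 + y)) - Real.log (y / x) / 2 +
      3 / 4 * ((y - x) / (x * y)) := by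
    unfold kh
    rw [Real.log_div hy0.ne' h0.ne']
    field_simp
    ring
  have h2 : Real.log (y / x) ≤ y / x - 1 := Real.log_le_sub_one_of_pos (by positivity)
  have h3 : y / x - 1 = (y - x) / x := by field_simp
  have h4 : 0 ≤ -(y - x) / ((1 + x) * (1 + y)) - (y - x) / x / 2 + 3 / 4 * ((y - x) / (x * y)) := by
    have e2 : -(y - x) / ((1 + x) * (1 + y)) - (y - x) / x / 2 + 3 / 4 * ((y - x) / (x * y)) =
        (y - x) * ((3 + y - 2 * y ^ 2) + x * (3 - 3 * y - 2 * y ^ 2)) /
          (4 * x * y * (1 + x) * (1 + y)) := by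
      field_simp
      ring
    rw [e2]
    apply div_nonneg _ (by positivity)
    apply mul_nonneg (by linarith)
    rcases le_total 0 (3 - 3 * y - 2 * y ^ 2) with h5 | h5
    · have h6 : 0 ≤ x * (3 - 3 * y - 2 * y ^ 2) := mul_nonneg h0.le h5
      nlinarith
    · have h6 : y * (3 - 3 * y - 2 * y ^ 2) ≤ x * (3 - 3 * y - 2 * y ^ 2) :=
        mul_le_mul_of_nonpos_right hxy h5
      have h7 : 0 ≤ (1 - y) * (3 + 7 * y + 2 * y ^ 2) := by
        apply mul_nonneg (by linarith) (by positivity)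
      nlinarith
  have h5 : 0 ≤ kh y - kh x := by
    rw [e]
    linarith
  linarith

lemma kf_cont : Continuous kf := by
  unfold kf
  have h1 : Continuous (fun x : ℝ => x * Real.log x) := Real.continuous_mul_log
  have h2 : Continuous (fun x : ℝ => (1 + x) * Real.log (1 + x)) :=
    h1.comp (continuous_const.add continuous_id)
  fun_prop

lemma kf_zero : kf 0 = 0 := by simp [kf]

lemma kf_one : kf 1 = 0 := by
  unfold kf
  norm_num

lemma kg_one : kg 1 = 0 := by
  unfold kg
  norm_num

theorem kf_nonneg (x : ℝ) (h0 : 0 ≤ x) (h1 : x ≤ 1) : 0 ≤ kf x := by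
  by_contra hc
  push Not at hc
  have hx0 : 0 < x := lt_of_le_of_ne h0 (fun h => by rw [← h, kf_zero] at hc; exact lt_irrefl _ hc)
  have hx1 : x < 1 := lt_of_le_of_ne h1 (fun h => by rw [h, kf_one] at hc; exact lt_irrefl _ hc)
  obtain ⟨a, ha, hea⟩ := exists_hasDerivAt_eq_slope kf kg hx0 kf_cont.continuousOn
    (fun y hy => kf_deriv y hy.1)
  obtain ⟨b, hb, heb⟩ := exists_hasDerivAt_eq_slope kf kg hx1 kf_cont.continuousOn
    (fun y hy => kf_deriv y (by linarith [hy.1]))
  rw [kf_zero, sub_zero, sub_zero] at hea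
  rw [kf_one, zero_sub] at heb
  have ha' : kg a < 0 := by rw [hea]; exact div_neg_of_neg_of_pos hc hx0
  have hb' : 0 < kg b := by rw [heb]; exact div_pos (by linarith) (by linarith)
  have hab : a < b := by linarith [ha.2, hb.1]
  have cont (p q : ℝ) (hp : 0 < p) : ContinuousOn kg (Set.Icc p q) := fun y hy =>
    (kg_deriv y (by linarith [hy.1])).continuousAt.continuousWithinAt
  obtain ⟨c1, hc1, hec1⟩ := exists_hasDerivAt_eq_slope kg kh hab (cont a b ha.1)
    (fun y hy => kg_deriv y (by linarith [hy.1, ha.1]))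
  obtain ⟨c2, hc2, hec2⟩ := exists_hasDerivAt_eq_slope kg kh hb.2 (cont b 1 (by linarith [ha.1]))
    (fun y hy => kg_deriv y (by linarith [hy.1, ha.1]))
  rw [kg_one] at hec2
  have h3 : 0 < kh c1 := by rw [hec1]; exact div_pos (by linarith) (by linarith)
  have h4 : kh c2 < 0 := by rw [hec2]; exact div_neg_of_neg_of_pos (by linarith) (by linarith [hb.2])
  have h5 := kh_mono c1 c2 (by linarith [hc1.1, ha.1]) (by linarith [hc1.2, hc2.1]) hc2.2.le
  linarith

end Pool.Agent.helper98.DNX
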