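import Pool.Agent.helper16.DH.E
import Pool.Agent.helper98.DNX.Low

/-! # `d - λ_d(m) = μ log₂(1/μ) + O(μ)` for `m ≥ 2^(d-1)` -/

set_option autoImplicit false

namespace Pool.Agent.helper98.DNX

open Finset Pool.Agent.helper65.HC

/-- the density of the complement -/
noncomputable def mu (d m : ℕ) : ℝ := 1 - (m : ℝ) / 2 ^ d

theorem main (d m : ℕ) (h1 : 2 ^ d ≤ 2 * m) (h2 : m < 2 ^ d) :
    mu d m * (Real.logb 2 (1 / mu d m) - 600) ≤ d - lam d m ∧
      (d : ℝ) - lam d m ≤ mu d m * (Real.logb 2 (1 / mu d m) + 2) := by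
  obtain ⟨s, hs⟩ : ∃ s, s = 2 ^ d - m := ⟨_, rfl⟩
  have hs1 : 1 ≤ s := by omega
  have hm : m = 2 ^ d - s := by omega
  have hs2 : s < 2 ^ d := by omega
  have hss : 2 * s ≤ 2 ^ d := by omega
  have hN : (0 : ℝ) < 2 ^ d := by positivity
  have hmr : (m : ℝ) = 2 ^ d - s := by
    rw [hm, Nat.cast_sub hs2.le]
    push_cast
    ring
  have hmu : mu d m = s / 2 ^ d := by
    unfold mu
    rw [hmr]
    field_simp
    ring
  have hinv : 1 / mu d m = 2 ^ d / s := by
    rw [hmu, one_div, inv_div]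
  rw [hinv, hmu]
  constructor
  · obtain ⟨⟨U, hU, ht⟩, _⟩ := lam_isGreatest d m (by
      have : 0 < 2 ^ d := by positivity
      omega) h2.le
    exact lower ht.1 s hs1 (by rw [hU]; omega)
  · have h3 := Pool.Agent.helper16.DH.upper_gap d s hs1 hss
    rw [← hm] at h3
    exact h3

end Pool.Agent.helper98.DNX
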